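import Pool.Agent.Helper60.T3.GoalsE

/-!
# Project T3 (MP_a41896_nt), packet PHC: the height of a polynomial and of its coefficients
-/

set_option autoImplicit false

open MvPolynomial

namespace Pool.Agent.Helper78.T3.PHC

open Height Height.AdmissibleAbsValues
open Pool.Agent.Helper92.Ru

/-- the height of a tuple is at most the product of the heights of its entries -/
theorem mulHeight_le_prod {K : Type} [Field K] [AdmissibleAbsValues K] {ι : Type} [Fintype ι]
    (x : ι → K) : mulHeight x ≤ ∏ i, mulHeight₁ (x i) := by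
  classical
  have hne : ∀ a : ι, (![x a, 1] : Fin 2 → K) ≠ 0 := by
    intro a h
    have := congrFun h 1
    simp at this
  have h1 := mulHeight_fun_prod_eq (x := fun a : ι => (![x a, 1] : Fin 2 → K)) hne
  have h2 := mulHeight_comp_le (fun a : ι => (fun b : ι => if b = a then (0 : Fin 2) else 1))
    (fun I : ι → Fin 2 => ∏ a, (![x a, 1] : Fin 2 → K) (I a))
  have h3 : (fun I : ι → Fin 2 => ∏ a, (![x a, 1] : Fin 2 → K) (I a)) ∘
      (fun a : ι => (fun b : ι => if b = a then (0 : Fin 2) else 1)) = x := by
    funext a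
    simp only [Function.comp_apply]
    rw [Finset.prod_eq_single a]
    · simp
    · intro b _ hb
      simp [hb]
    · intro h
      exact absurd (Finset.mem_univ a) h
  rw [h3, h1] at h2
  refine h2.trans (le_of_eq (Finset.prod_congr rfl fun a _ => ?_))
  rw [mulHeight₁_eq_mulHeight]

theorem t : Pool.Agent.Helper60.T3.S_PHC := by
  intro K _ _ σ r
  have h1 : PH r ≤ ∏ e : r.support, mulHeight₁ (coeff (e : σ →₀ ℕ) r) :=
    mulHeight_le_prod fun e : r.support => coeff (e : σ →₀ ℕ) r
  have h0 : 0 < PH r := mulHeight_pos _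
  refine (Real.log_le_log h0 h1).trans ?_
  rw [Real.log_prod (fun e _ => mulHeight₁_ne_zero _)]
  exact le_of_eq (Finset.sum_coe_sort r.support fun m => logHeight₁ (coeff m r))

end Pool.Agent.Helper78.T3.PHC
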